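import Mathlib
import Pool.Agent.H1.CM.Targets2
import Pool.Agent.H1.CM.SBasic

/-!
# Module AFF: a thickening of an affine scheme is affine (characteristic 2)
-/

open CategoryTheory AlgebraicGeometry Limits TopologicalSpace Opposite

namespace Pool.Agent.H1.CM

namespace AFF

open IsLocalRing

/-- Frobenius in a ring with `2 = 0`. -/
lemma add_pow_two_pow {C : Type*} [CommRing C] (h : (2 : C) = 0) (x y : C) (n : ℕ) :
    (x + y) ^ (2 ^ n) = x ^ (2 ^ n) + y ^ (2 ^ n) := by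
  induction n with
  | zero => simp
  | succ n ih =>
    rw [pow_succ, pow_mul, ih, pow_mul, pow_mul]
    linear_combination (x ^ 2 ^ n * y ^ 2 ^ n) * h

lemma sum_pow_two_pow {C : Type*} [CommRing C] (h : (2 : C) = 0) {ι : Type*} (s : Finset ι)
    (f : ι → C) (n : ℕ) :
    (∑ i ∈ s, f i) ^ (2 ^ n) = ∑ i ∈ s, f i ^ (2 ^ n) := by
  classical
  induction s using Finset.induction_on with
  | empty => simp
  | insert a s ha ih => rw [Finset.sum_insert ha, Finset.sum_insert ha, add_pow_two_pow h, ih]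

/-- Elements of the ideal generated by a nilpotent ideal. -/
lemma pow_eq_zero_of_mem_map {A C : Type*} [CommRing A] [CommRing C] (φ : A →+* C) (I : Ideal A)
    (N : ℕ) (hN : I ^ N = ⊥) {c : C} (hc : c ∈ I.map φ) : c ^ (2 ^ N) = 0 := by
  have h1 : c ^ N ∈ (I.map φ) ^ N := Ideal.pow_mem_pow hc N
  rw [← Ideal.map_pow, hN, Ideal.map_bot, Ideal.mem_bot] at h1
  exact pow_eq_zero_of_le (Nat.lt_two_pow_self).le h1

/-- The equality of sections can be checked on affine open sets. -/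
lemma ext_affine {X : Scheme.{0}} {U : X.Opens} (s t : Γ(X, U))
    (h : ∀ (W : X.Opens) (_ : IsAffineOpen W) (hW : W ≤ U), rs X hW s = rs X hW t) : s = t := by
  apply X.IsSheaf.section_ext
  rintro x hxU
  obtain ⟨W, hW, hxW, hWU⟩ := exists_isAffineOpen_mem_and_subset (U := U) (x := x) hxU
  exact ⟨W, hWU, hxW, h W hW hWU⟩

section Main

variable {A k : Type} [CommRing A] [IsLocalRing A] [Field k] {X X₀ : Scheme.{0}}
  (f : X ⟶ Spec (CommRingCat.of A)) (i : X₀ ⟶ X)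

/-- The properties of the thickening used below. -/
structure Thick : Prop where
  two : (2 : A) = 0
  aff : ∀ U : X.Opens, IsAffineOpen U → IsAffineOpen (i ⁻¹ᵁ U)
  surj : ∀ U : X.Opens, IsAffineOpen U → Function.Surjective (i.app U).hom
  ker : ∀ U : X.Opens, IsAffineOpen U → ∀ g : Γ(X, U), (i.app U).hom g = 0 ↔
    g ∈ Ideal.map (scal f U) (maximalIdeal A)
  le : ∀ U U' : X.Opens, i ⁻¹ᵁ U ≤ i ⁻¹ᵁ U' → U ≤ U'

variable {f i} (hT : Thick f i) (N : ℕ) (hN : maximalIdeal A ^ N = ⊥)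

include hT

lemma two_sec (U : X.Opens) : (2 : Γ(X, U)) = 0 := by
  have h := congrArg (scal f U) hT.two
  rw [map_zero, map_ofNat] at h
  exact h

lemma app_rs {U V : X.Opens} (h : U ≤ V) (c : Γ(X, V)) :
    (i.app U).hom (rs X h c) = rs X₀ (i.preimage_mono h) ((i.app V).hom c) := by
  have := appLE_rs i h (i.preimage_mono h) le_rfl le_rfl c
  rw [Scheme.Hom.app_eq_appLE, Scheme.Hom.app_eq_appLE]
  exact this

include hN

lemma pow_zero_aff {U : X.Opens} (hU : IsAffineOpen U) {g : Γ(X, U)} (hg : (i.app U).hom g = 0) :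
    g ^ (2 ^ N) = 0 :=
  pow_eq_zero_of_mem_map _ _ N hN ((hT.ker U hU g).1 hg)

lemma pow_eq_aff {U : X.Opens} (hU : IsAffineOpen U) {g g' : Γ(X, U)}
    (hg : (i.app U).hom g = (i.app U).hom g') : g ^ (2 ^ N) = g' ^ (2 ^ N) := by
  have h1 : (g - g') ^ (2 ^ N) = 0 := pow_zero_aff hT N hN hU (by rw [map_sub, hg, sub_self])
  have h2 := add_pow_two_pow (two_sec hT U) (g - g') g' N
  rw [sub_add_cancel, h1, zero_add] at h2
  exact h2

lemma pow_eq {U : X.Opens} {g g' : Γ(X, U)}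
    (hg : (i.app U).hom g = (i.app U).hom g') : g ^ (2 ^ N) = g' ^ (2 ^ N) := by
  apply ext_affine
  intro W hW hWU
  rw [map_pow, map_pow]
  apply pow_eq_aff hT N hN hW
  rw [app_rs hT, app_rs hT, hg]

/-- Lifting of `q`-th powers. -/
lemma lift {U : X.Opens} (f₀ : Γ(X₀, i ⁻¹ᵁ U)) :
    ∃ F : Γ(X, U), (i.app U).hom F = f₀ ^ (2 ^ N) := by
  let ι := {W : X.Opens // IsAffineOpen W ∧ W ≤ U}
  have h1 : ∀ W : ι, ∃ g : Γ(X, W.1), (i.app W.1).hom g
      = rs X₀ (i.preimage_mono W.2.2) f₀ := fun W => hT.surj W.1 W.2.1 _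
  choose g hg using h1
  obtain ⟨F, hF, -⟩ := X.sheaf.existsUnique_gluing' (fun W : ι => W.1) U
    (fun W => homOfLE W.2.2) (by
      intro x hx
      obtain ⟨W, hW, hxW, hWU⟩ := exists_isAffineOpen_mem_and_subset (U := U) (x := x) hx
      exact Opens.mem_iSup.2 ⟨⟨W, hW, hWU⟩, hxW⟩)
    (fun W => (g W ^ (2 ^ N) : Γ(X, W.1))) (by
      intro W W'
      apply ext_affine
      intro W'' hW'' hle
      change rs X hle (rs X inf_le_left (g W ^ (2 ^ N))) =
        rs X hle (rs X inf_le_right (g W' ^ (2 ^ N)))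
      rw [rs_rs, rs_rs, map_pow, map_pow]
      apply pow_eq_aff hT N hN hW''
      rw [app_rs hT, app_rs hT, hg, hg, rs_rs, rs_rs])
  have hF' : ∀ W : ι, rs X W.2.2 F = g W ^ (2 ^ N) := fun W => hF W
  refine ⟨F, ?_⟩
  apply X₀.IsSheaf.section_ext
  rintro x hxU
  obtain ⟨W, hW, hxW, hWU'⟩ := exists_isAffineOpen_mem_and_subset (U := U) (x := i x) hxU
  have hWU : W ≤ U := hWU'
  refine ⟨i ⁻¹ᵁ W, i.preimage_mono hWU, hxW, ?_⟩
  change rs X₀ (i.preimage_mono hWU) ((i.app U).hom F) = rs X₀ (i.preimage_mono hWU) (f₀ ^ (2 ^ N))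
  have hg' : (i.app W).hom (g ⟨W, hW, hWU⟩) = rs X₀ (i.preimage_mono hWU) f₀ := hg ⟨W, hW, hWU⟩
  rw [← app_rs hT hWU, hF' ⟨W, hW, hWU⟩, map_pow, map_pow]
  exact congrArg (· ^ (2 ^ N)) hg'

theorem main (U : X.Opens) (hU : IsAffineOpen (i ⁻¹ᵁ U)) : IsAffineOpen U := by
  set q := 2 ^ N with hq
  -- the sections whose basic open set is affine
  have h1 : ∀ x : (i ⁻¹ᵁ U : X₀.Opens), ∃ f₀ : Γ(X₀, i ⁻¹ᵁ U), x.1 ∈ X₀.basicOpen f₀ ∧
      ∀ F : Γ(X, U), (i.app U).hom F = f₀ ^ q → IsAffineOpen (X.basicOpen F) := by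
    rintro ⟨x, hx⟩
    obtain ⟨W, hW, hxW, hWU⟩ := exists_isAffineOpen_mem_and_subset (U := U) (x := i x) hx
    obtain ⟨f₀, hf₀, hxf⟩ := hU.exists_basicOpen_le (V := i ⁻¹ᵁ W) ⟨x, hxW⟩ hx
    refine ⟨f₀, hxf, ?_⟩
    intro F hF
    have h2 : i ⁻¹ᵁ (X.basicOpen F) = X₀.basicOpen f₀ := by
      rw [Scheme.preimage_basicOpen]
      change X₀.basicOpen ((i.app U).hom F) = _
      rw [hF]
      exact X₀.basicOpen_pow _ (hq ▸ pow_pos (by norm_num) N)
    have h3 : X.basicOpen F ≤ W := hT.le _ _ (by rw [h2]; exact hf₀)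
    have h4 : X.basicOpen (rs X hWU F) = X.basicOpen F := by
      have := X.basicOpen_res F (homOfLE hWU).op
      change X.basicOpen (X.presheaf.map (homOfLE hWU).op F) = _
      rw [this]
      exact inf_eq_right.2 h3
    rw [← h4]
    exact hW.basicOpen _
  choose f₀ hxf hf₀ using h1
  have h5 : Ideal.span (Set.range f₀) = ⊤ := by
    rw [← hU.self_le_iSup_basicOpen_iff]
    intro x hx
    exact Opens.mem_iSup.2 ⟨⟨f₀ ⟨x, hx⟩, Set.mem_range_self _⟩, hxf ⟨x, hx⟩⟩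
  have h6 : ∃ c : (i ⁻¹ᵁ U : X₀.Opens) →₀ Γ(X₀, i ⁻¹ᵁ U), ∑ x ∈ c.support, c x * f₀ x = 1 := by
    have := (Ideal.eq_top_iff_one _).1 h5
    rw [Ideal.span, Finsupp.mem_span_range_iff_exists_finsupp] at this
    obtain ⟨c, hc⟩ := this
    exact ⟨c, hc⟩
  obtain ⟨c, hc⟩ := h6
  have h7 : ∀ x : (i ⁻¹ᵁ U : X₀.Opens), ∃ F : Γ(X, U), (i.app U).hom F = f₀ x ^ q :=
    fun x => lift hT N hN (f₀ x)
  choose F hF using h7
  have h8 : ∀ x : (i ⁻¹ᵁ U : X₀.Opens), ∃ G : Γ(X, U), (i.app U).hom G = c x ^ q :=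
    fun x => lift hT N hN (c x)
  choose G hG using h8
  have h9 : (∑ x ∈ c.support, G x ^ q * F x ^ q) = 1 := by
    have h10 : (i.app U).hom (∑ x ∈ c.support, G x * F x) = (i.app U).hom 1 := by
      rw [map_sum, map_one]
      have : ∀ x ∈ c.support, (i.app U).hom (G x * F x) = (c x * f₀ x) ^ q := by
        intro x _
        rw [map_mul, hF, hG, mul_pow]
      rw [Finset.sum_congr rfl this, hq, ← sum_pow_two_pow ?_, hc, one_pow]
      have h := congrArg (i.app U).hom (two_sec hT U)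
      rw [map_zero, map_ofNat] at h
      exact h
    have h11 := pow_eq hT N hN h10
    rw [one_pow, sum_pow_two_pow (two_sec hT U)] at h11
    rw [← h11]
    refine Finset.sum_congr rfl fun x _ => ?_
    rw [mul_pow]
  refine isAffineOpen_of_isAffineOpen_basicOpen U (Set.range F) ?_ ?_
  · rw [Ideal.eq_top_iff_one, ← h9]
    refine Ideal.sum_mem _ fun x _ => ?_
    refine Ideal.mul_mem_left _ _ ?_
    exact Ideal.pow_mem_of_mem _ (Ideal.subset_span (Set.mem_range_self x)) q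
      (hq ▸ pow_pos (by norm_num) N)
  · rintro _ ⟨x, rfl⟩
    exact hf₀ x (F x) (hF x)

end Main

end AFF

open IsLocalRing in
theorem aff (h1 : T_HOM) (h2 : T_SUR) : T_AFF := by
  intro A k _ _ _ _ π hπ h20 X X₀ f s₀ i hi U hU
  obtain ⟨-, -, hle⟩ := h1 π hπ f s₀ i hi
  have hs := h2 π hπ f s₀ i hi
  have hT : AFF.Thick f i :=
    ⟨h20, fun U hU => (hs U hU).1, fun U hU => (hs U hU).2.1, fun U hU => (hs U hU).2.2, hle⟩
  obtain ⟨N, hN⟩ : ∃ N, maximalIdeal A ^ N = ⊥ := by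
    have := IsArtinianRing.isNilpotent_jacobson_bot (R := A)
    rw [IsLocalRing.jacobson_eq_maximalIdeal ⊥ bot_ne_top] at this
    exact this
  exact AFF.main hT N hN U hU

end Pool.Agent.H1.CM
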